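import Pool.Agent.N728.QG.Def
import Pool.Agent.N728.QL.MC

set_option autoImplicit false

/-! Project QG (helper728): the mean value theorem for the Liouville function from the stages A and BC. -/

namespace Pool.Agent.N362.QG

open Finset Pool.Agent.N728.QL Pool.Agent.N728.QG

/-- the inner sum -/
noncomputable def Lb (G : Polynomial ℤ) (c : ℤ) (T : ℕ) (b : ℤ) : ℝ :=
  ∑ t ∈ Icc 1 T, lam ((t : ℤ) * (G.eval (t : ℤ) + b) + c)

lemma SE_eq (G : Polynomial ℤ) (c : ℤ) (K B T : ℕ) (F : ℤ → ℝ)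
    (hF : ∀ b, ¬ ((B : ℤ) < b ∧ b ≤ 5 * B) → F b = 0) (hR : Rge G K B T) :
    SE G K (fun n => lam ((n : ℤ) + c)) B T F = ∑ b ∈ Ioc (B : ℤ) (5 * B), F b * Lb G c T b := by
  have hs : ∀ u ∈ Icc 1 T, ∑ v ∈ Icc 1 (K * B), F ((v : ℤ) - G.eval (u : ℤ)) *
      lam (((u * v : ℕ) : ℤ) + c) =
      ∑ b ∈ Ioc (B : ℤ) (5 * B), F b * lam ((u : ℤ) * (G.eval (u : ℤ) + b) + c) := by
    intro u hu
    rw [mem_Icc] at hu
    obtain ⟨hr1, hr2⟩ := hR u hu.1 hu.2
    obtain ⟨g, hg⟩ : ∃ g : ℤ, g = G.eval (u : ℤ) := ⟨_, rfl⟩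
    rw [← hg] at hr1 hr2
    rw [← hg]
    have hKB : ((K * B : ℕ) : ℤ) = (K : ℤ) * B := by push_cast; ring
    rw [← hKB] at hr2
    have h1 : ∑ v ∈ Icc 1 (K * B), F ((v : ℤ) - g) * lam (((u * v : ℕ) : ℤ) + c) =
        ∑ v ∈ (Icc 1 (K * B)).filter (fun v : ℕ => (B : ℤ) < (v : ℤ) - g ∧ (v : ℤ) - g ≤ 5 * B),
          F ((v : ℤ) - g) * lam (((u * v : ℕ) : ℤ) + c) := by
      rw [sum_filter]
      refine sum_congr rfl fun v _ => ?_
      split_ifs with h
      · rfl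
      · rw [hF _ h, zero_mul]
    rw [h1]
    apply Finset.sum_bij' (fun (v : ℕ) _ => (v : ℤ) - g) (fun (b : ℤ) _ => (b + g).toNat)
    · intro v hv
      rw [mem_filter] at hv
      rw [mem_Ioc]
      exact hv.2
    · intro b hb
      rw [mem_Ioc] at hb
      rw [mem_filter, mem_Icc]
      have hpos : 0 < b + g := by omega
      have e : ((b + g).toNat : ℤ) = b + g := Int.toNat_of_nonneg hpos.le
      refine ⟨⟨by omega, by omega⟩, by omega, by omega⟩
    · intro v hv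
      simp
    · intro b hb
      rw [mem_Ioc] at hb
      have hpos : 0 < b + g := by omega
      have e : ((b + g).toNat : ℤ) = b + g := Int.toNat_of_nonneg hpos.le
      rw [e]; ring
    · intro v hv
      congr 2
      push_cast
      ring
  unfold SE
  rw [sum_congr rfl hs, sum_comm]
  refine sum_congr rfl fun b _ => ?_
  unfold Lb
  rw [mul_sum]

lemma SE_add (G : Polynomial ℤ) (K : ℕ) (E : ℕ → ℝ) (B T : ℕ) (F F1 F2 : ℤ → ℝ)
    (h : ∀ b, F b = 2 * F1 b + F2 b) :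
    SE G K E B T F = 2 * SE G K E B T F1 + SE G K E B T F2 := by
  unfold SE
  rw [mul_sum, ← sum_add_distrib]
  refine sum_congr rfl fun u _ => ?_
  rw [mul_sum, ← sum_add_distrib]
  refine sum_congr rfl fun v _ => ?_
  rw [h]
  ring

lemma lam_bd (n : ℤ) : |lam n| ≤ 1 := by
  unfold lam
  split_ifs
  · simp
  · rw [abs_pow, abs_neg, abs_one, one_pow]

/-- powers of the logarithm -/
lemma log_pow_le (C : ℕ) (M : ℝ) : ∃ B0 : ℕ, ∀ B : ℕ, B0 ≤ B → M * Real.log B ^ C < B := by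
  have h1 : Filter.Tendsto (fun x : ℝ => Real.log x ^ C / x) Filter.atTop (nhds 0) :=
    Real.isLittleO_pow_log_id_atTop.tendsto_div_nhds_zero
  have h2 : Filter.Tendsto (fun N : ℕ => M * (Real.log (N : ℝ) ^ C / N)) Filter.atTop (nhds (M * 0)) :=
    (h1.comp tendsto_natCast_atTop_atTop).const_mul _
  rw [mul_zero] at h2
  obtain ⟨Bp, hBp⟩ := Filter.eventually_atTop.1 (h2.eventually (gt_mem_nhds one_pos))
  refine ⟨max Bp 1, fun B hB => ?_⟩
  have h4 := hBp B ((le_max_left _ _).trans hB)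
  have hB1 : (0 : ℝ) < B := by exact_mod_cast (le_max_right _ _).trans hB
  rwa [← mul_div_assoc, div_lt_one hB1] at h4

/-- **The mean value theorem for the Liouville function.** -/
theorem t_MCL (hAL : ∀ G : Polynomial ℤ, 1 ≤ G.natDegree → S_AL G)
    (hBC : ∀ G : Polynomial ℤ, 1 ≤ G.natDegree → Pool.Agent.N728.QG.S_BC G)
    (hB4 : ∀ c : ℤ, c ≠ 0 → S_B4L c) (hUU : S_UU) :
    ∀ (G : Polynomial ℤ) (c : ℤ), 1 ≤ G.natDegree → c ≠ 0 → S_MCL G c := by
  classical
  intro G c he hc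
  obtain ⟨C1, hb4⟩ := hB4 c hc
  obtain ⟨e, hee⟩ : ∃ e, e = G.natDegree := ⟨_, rfl⟩
  refine ⟨C1 + 1, fun K C2 ε hK hε => ?_⟩
  obtain ⟨q, hq1, ηA, hηA, hA⟩ := hAL G he K (ε / 8) hK (by positivity)
  obtain ⟨BA, hBA⟩ := hA q hq1 (dvd_refl q)
  obtain ⟨C0, hC0, k, BU, hBU⟩ := hUU (8 * (G.natDegree + 1)) (by omega)
  have hKr : (1 : ℝ) ≤ K := by exact_mod_cast hK
  have hqr : (0 : ℝ) < q := by exact_mod_cast hq1
  obtain ⟨η, hηdef⟩ : ∃ η : ℝ, η = min ηA (1 / (10 * K)) := ⟨_, rfl⟩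
  have hη : 0 < η := by rw [hηdef]; positivity
  have hη1 : η ≤ ηA := by rw [hηdef]; exact min_le_left _ _
  have hη2 : η ≤ 1 / (10 * K) := by rw [hηdef]; exact min_le_right _ _
  obtain ⟨ε', hε', BB, hBB⟩ := hBC G he C0 0 (ε / 8) (η / 2) k K C2 q hC0 le_rfl (by positivity) (by positivity)
    hK hq1
  obtain ⟨B4, hB4'⟩ := hb4 K (G.natDegree + 1) q ε' hK (by omega) hq1 hε'
  obtain ⟨Bp, hBp⟩ := log_pow_le (C2 * (e + 1)) 1
  obtain ⟨Bq, hBq⟩ := log_pow_le C2 (4 * q / η)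
  have hlim : Filter.Tendsto (fun N : ℕ => Real.log (N : ℝ)) Filter.atTop Filter.atTop :=
    Real.tendsto_log_atTop.comp tendsto_natCast_atTop_atTop
  obtain ⟨Bl, hBl⟩ := Filter.eventually_atTop.1 (hlim.eventually_ge_atTop 1)
  refine ⟨max (max (max BA BU) (max BB B4)) (max (max Bp Bq) (max Bl 3)), fun B hB T hT1 hT2 hT3 hR => ?_⟩
  have b1 : BA ≤ B := (((le_max_left _ _).trans (le_max_left _ _)).trans (le_max_left _ _)).trans hB
  have b2 : BU ≤ B := (((le_max_right _ _).trans (le_max_left _ _)).trans (le_max_left _ _)).trans hB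
  have b3 : BB ≤ B := (((le_max_left _ _).trans (le_max_right _ _)).trans (le_max_left _ _)).trans hB
  have b4 : B4 ≤ B := (((le_max_right _ _).trans (le_max_right _ _)).trans (le_max_left _ _)).trans hB
  have b5 : Bp ≤ B := (((le_max_left _ _).trans (le_max_left _ _)).trans (le_max_right _ _)).trans hB
  have b6 : Bq ≤ B := (((le_max_right _ _).trans (le_max_left _ _)).trans (le_max_right _ _)).trans hB
  have b7 : Bl ≤ B := (((le_max_left _ _).trans (le_max_right _ _)).trans (le_max_right _ _)).trans hB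
  have b8 : 3 ≤ B := (((le_max_right _ _).trans (le_max_right _ _)).trans (le_max_right _ _)).trans hB
  have hBr : (3 : ℝ) ≤ B := by exact_mod_cast b8
  have hB0 : (0 : ℝ) < B := by linarith
  have hp := hBp B b5
  have hq := hBq B b6
  have hl1 := hBl B b7
  obtain ⟨L, hL⟩ : ∃ L, L = Real.log (B : ℝ) := ⟨_, rfl⟩
  rw [← hL] at hl1 hp hq
  rw [one_mul] at hp
  have hL0 : 0 < L := by linarith
  have hLp : 0 < L ^ C2 := by positivity
  have hT3' : (T : ℝ) * L ^ C1 ≤ B := by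
    refine le_trans ?_ hT3
    rw [← hL]
    apply mul_le_mul_of_nonneg_left _ (Nat.cast_nonneg T)
    exact pow_le_pow_right₀ hl1 (by omega)
  have hTB : (T : ℝ) ≤ B := by
    refine le_trans ?_ hT3'
    exact le_mul_of_one_le_right (Nat.cast_nonneg T) (one_le_pow₀ hl1)
  have hTB' : T ≤ B := by exact_mod_cast hTB
  rw [← hL, ← hee] at hT1
  obtain ⟨Te, hTe⟩ : ∃ x : ℝ, x = (T : ℝ) ^ e := ⟨_, rfl⟩
  rw [← hTe] at hT1
  have hTe0 : 0 < Te := by
    by_contra hcon
    have h1 : Te * L ^ C2 ≤ 0 := mul_nonpos_of_nonpos_of_nonneg (not_lt.1 hcon) hLp.le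
    linarith
  have hT0 : (0 : ℝ) < T := by
    rcases Nat.eq_zero_or_pos T with h1 | h1
    · exfalso
      rw [hTe, h1, Nat.cast_zero, zero_pow (by omega)] at hTe0
      exact lt_irrefl _ hTe0
    · exact_mod_cast h1
  have hTeK : Te ≤ K * B := by
    rw [hTe, hee]
    exact_mod_cast hT2
  -- `T ^ e` is large
  have hTbig : 4 * (q : ℝ) / η ≤ Te := by
    have h4 : (4 * (q : ℝ) / η) * L ^ C2 ≤ Te * L ^ C2 := hq.le.trans hT1
    exact le_of_mul_le_mul_right h4 hLp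
  have hTL : L ^ C2 ≤ T := by
    by_contra hcon
    push Not at hcon
    have h1 : Te ≤ (L ^ C2) ^ e := by
      rw [hTe]
      exact pow_le_pow_left₀ hT0.le hcon.le e
    have h2 : (B : ℝ) ≤ L ^ (C2 * (e + 1)) := by
      calc (B : ℝ) ≤ Te * L ^ C2 := hT1
        _ ≤ (L ^ C2) ^ e * L ^ C2 := by gcongr
        _ = L ^ (C2 * (e + 1)) := by rw [← pow_succ, ← pow_mul]
    linarith
  have hBT : B ≤ T ^ (G.natDegree + 1) := by
    have h1 : (B : ℝ) ≤ (T : ℝ) ^ (G.natDegree + 1) := by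
      calc (B : ℝ) ≤ Te * L ^ C2 := hT1
        _ ≤ Te * T := by gcongr
        _ = (T : ℝ) ^ (G.natDegree + 1) := by rw [hTe, hee, pow_succ]
    exact_mod_cast h1
  -- the cells
  obtain ⟨h, hh⟩ : ∃ h, h = ⌊η * Te / q⌋₊ := ⟨_, rfl⟩
  have hh1 : (h : ℝ) ≤ η * Te / q := by rw [hh]; exact Nat.floor_le (by positivity)
  have hh2 : η * Te / q < h + 1 := by rw [hh]; exact Nat.lt_floor_add_one _
  have h4 : 4 ≤ η * Te / q := by
    rw [le_div_iff₀ hqr]
    rw [div_le_iff₀ hη] at hTbig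
    linarith
  have hhpos : 1 ≤ h := by
    have : (3 : ℝ) < h := by linarith
    exact_mod_cast (by linarith : (1 : ℝ) ≤ h)
  obtain ⟨H, hH⟩ : ∃ H, H = q * h := ⟨_, rfl⟩
  have hHr : (H : ℝ) = q * h := by rw [hH]; push_cast; ring
  have hH1 : (H : ℝ) ≤ η * Te := by
    rw [hHr]
    rw [le_div_iff₀ hqr] at hh1
    linarith
  have hH2 : η / 2 * Te ≤ H := by
    rw [hHr]
    have h5 : η * Te / q / 2 ≤ h := by linarith
    rw [div_div, div_le_iff₀ (by positivity)] at h5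
    linarith
  have hHη : (H : ℝ) ≤ ηA * Te := hH1.trans (mul_le_mul_of_nonneg_right hη1 hTe0.le)
  have hH10 : 10 * (H : ℝ) ≤ B := by
    have h5 : η * Te ≤ 1 / (10 * K) * (K * B) := mul_le_mul hη2 hTeK hTe0.le (by positivity)
    have h6 : 1 / (10 * (K : ℝ)) * (K * B) = B / 10 := by
      field_simp
    rw [h6] at h5
    linarith
  have hH10' : 10 * H ≤ B := by exact_mod_cast hH10
  have hHpos : 1 ≤ H := by rw [hH]; exact Nat.mul_pos hq1 hhpos
  have hHz : (0 : ℤ) < (H : ℤ) := by exact_mod_cast hHpos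
  -- the sign function
  set F : ℤ → ℝ := fun b => if 2 * (B : ℤ) < b ∧ b ≤ 4 * B then (if 0 ≤ Lb G c T b then 1 else -1) else 0
    with hF
  have hF1 : ∀ b, |F b| ≤ 1 := by
    intro b
    simp only [hF]
    split_ifs <;> norm_num
  have hFa : Adm5 F B := by
    refine ⟨hF1, fun b hb => ?_⟩
    simp only [hF]
    rw [if_neg]
    intro hcon
    exact hb (by omega)
  have havA : Adm5 (av F q h) B := by
    refine ⟨av_bd hF1 hq1 hhpos, fun b hb => ?_⟩
    unfold av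
    rw [div_eq_zero_iff]
    left
    apply sum_eq_zero
    intro b' hb'
    rw [mem_filter, ← hH, mem_cell hHz] at hb'
    have h5 := (mem_cell hHz b (b / H)).2 rfl
    have h6 := (mem_cell hHz b' (b / H)).2 hb'.1
    rw [mem_Ico] at h5 h6
    have h7 : (b / (H : ℤ) + 1) * H = b / H * H + H := by ring
    simp only [hF]
    rw [if_neg]
    intro hcon
    apply hb
    omega
  have h0A : Adm5 (fun b => (F b - av F q h b) / 2) B := by
    refine ⟨fun b => ?_, fun b hb => ?_⟩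
    · rw [abs_div, abs_of_pos (by norm_num : (0 : ℝ) < 2), div_le_one (by norm_num)]
      have h5 := abs_sub (F b) (av F q h b)
      have h6 := hF1 b
      have h7 := havA.1 b
      linarith
    · simp only
      rw [hFa.2 b hb, havA.2 b hb]
      norm_num
  have hE1 : ∀ n : ℕ, |lam ((n : ℤ) + c)| ≤ 1 := fun n => lam_bd _
  -- the two stages
  have sA := hBA B b1 T H (fun b => (F b - av F q h b) / 2) (fun n => lam ((n : ℤ) + c)) hBT hT2 hR
    (by rw [hH]; exact dvd_mul_right q h) hHpos (by rw [← hee, ← hTe]; exact hHη) (by omega) h0A (by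
    rw [hH]
    exact av_zero hq1 hhpos) hE1
  have sB := hBB B b3 (fun _ => 1) (fun n => lam ((n : ℤ) + c)) hE1 (hBU B b2).1 (hBU B b2).2 T H
    (av F q h) (by rw [← hL, ← hee, ← hTe]; exact hT1) hT2 hTB' hR
    (hB4' B b4 T hBT (by rw [← hL]; exact hT3'))
    (by rw [hH]; exact dvd_mul_right q h) (by rw [← hee, ← hTe]; exact hH2) hH10' havA (by
    rw [hH]
    exact av_const)
  have eF := SE_add G K (fun n => lam ((n : ℤ) + c)) B T F (fun b => (F b - av F q h b) / 2) (av F q h)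
    (fun b => by ring)
  have eS := SE_eq G c K B T F hFa.2 hR
  have hBTpos : 0 < (B : ℝ) * T := by positivity
  have hsum : ∑ b ∈ Ioc (2 * B) (4 * B), |∑ t ∈ Icc 1 T, lam ((t : ℤ) * (G.eval (t : ℤ) + b) + c)| =
      ∑ b ∈ Ioc (B : ℤ) (5 * B), F b * Lb G c T b := by
    have e1 : ∑ b ∈ Ioc (B : ℤ) (5 * B), F b * Lb G c T b =
        ∑ b ∈ (Ioc (B : ℤ) (5 * B)).filter (fun b => 2 * (B : ℤ) < b ∧ b ≤ 4 * B), |Lb G c T b| := by
      rw [sum_filter]
      refine sum_congr rfl fun b _ => ?_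
      simp only [hF]
      split_ifs with h1 h2
      · rw [abs_of_nonneg h2, one_mul]
      · rw [abs_of_neg (not_le.1 h2), neg_one_mul]
      · rw [zero_mul]
    rw [e1]
    apply Finset.sum_bij (fun (b : ℕ) _ => (b : ℤ))
    · intro b hb
      rw [mem_Ioc] at hb
      rw [mem_filter, mem_Ioc]
      omega
    · intro x _ x' _ hx
      exact_mod_cast hx
    · intro b hb
      rw [mem_filter, mem_Ioc] at hb
      exact ⟨b.toNat, by rw [mem_Ioc]; omega, by omega⟩
    · intro b _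
      rfl
  rw [hsum, ← eS, eF]
  have h5 := (le_abs_self _).trans sA
  have h6 := (le_abs_self _).trans sB
  have h7 : ε * ((B : ℝ) * T) = 8 * (ε / 8 * (B * T)) := by ring
  rw [h7]
  have h8 : 0 ≤ ε / 8 * ((B : ℝ) * T) := by positivity
  rw [zero_add] at h6
  linarith

end Pool.Agent.N362.QG
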